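import Mathlib
import Pool.Agent.H597Z.UrDefs
import Pool.Agent.H597Z.UrModel
import Pool.Agent.H254Z.GB.Defs
import Pool.Agent.H254Z.GB.LS

set_option autoImplicit false

universe u

namespace Pool.Agent.Results.MP_befa16_lc.AConservative

open Pool.Agent.H597Z.Ur Pool.Agent.H254Z.GB

/-- GBU_R + Global Choice is conservative over ZFCU_R: a first-order sentence which holds in the
first-order part of every two-sorted model of the class theory holds in every model of ZFCU_R.
(By soundness a sentence proved by the class theory satisfies the hypothesis, and by the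
completeness theorem the conclusion says that ZFCU_R proves it.) Both theories have models. -/
theorem result :
    (∀ σ : Fml Empty 0,
      (∀ (S : Str.{0}) (C : Type) (cm : S.M → C → Prop), GBURGC S C cm →
        Sat S Empty.elim σ Fin.elim0) →
      ∀ S : Str.{u}, ZFCUR S → Sat S Empty.elim σ Fin.elim0) ∧
    ∃ (S : Str.{0}) (C : Type) (cm : S.M → C → Prop), ZFCUR S ∧ GBURGC S C cm := by
  refine ⟨fun σ h S hS => conservative σ h S hS, ?_⟩
  have h : ZFCUR (H597Z.Ur.U ℝ) := ⟨U_zfcu.zcu, U_zfcu.repl⟩
  obtain ⟨d, -⟩ := h.zcu.inf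
  have : Countable (HS _ d).M := inferInstanceAs (Countable (Hull _ d))
  obtain ⟨C, cm, hC⟩ := (h.hull d).expand
  exact ⟨_, C, cm, h.hull d, hC⟩

end Pool.Agent.Results.MP_befa16_lc.AConservative
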